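import Mathlib
import Pool.Agent.H.MP_7406cc_gt.A
import Pool.Agent.H.MP_3bc7a7_gt.A

set_option autoImplicit false

namespace Pool.Agent.Results.MP_7406cc_gt.Indep

open Set Filter Topology Function Order Pool.Agent.Lib.helper23 TopologicalSpace
open Cardinal hiding univ
open MinB Pool.Agent.H.MP_7406cc_gt.A Pool.Agent.H.MP_3bc7a7_gt.A

def Minimal (G : Type) [Group G] [τ : TopologicalSpace G] : Prop :=
  ∀ t : TopologicalSpace G, τ ≤ t → @IsTopologicalGroup G t _ → @T2Space G t → t = τ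

def Pseudoradial (G : Type) [TopologicalSpace G] : Prop := ∀ A : Set G, ¬ IsClosed A →
  ∃ (ι : Type) (_ : LinearOrder ι), WellFoundedLT ι ∧ Nonempty ι ∧
    ∃ (x : ι → G) (p : G), (∀ i, x i ∈ A) ∧ p ∉ A ∧ Tendsto x atTop (𝓝 p)

def NoSmallSplitting : Prop := ∀ 𝒮 : Set (Set ℕ), #𝒮 ≤ ℵ₁ →
  ∃ I : Set ℕ, I.Infinite ∧ ∀ S ∈ 𝒮, (I ∩ S).Finite ∨ (I \ S).Finite

lemma chi (κ : Cardinal) (hκ : ℵ₀ ≤ κ) (hc : 𝔠 ≤ succ κ) (G : Type) [CommGroup G]
    [TopologicalSpace G] [IsTopologicalGroup G] [h2 : T2Space G] (hM : Minimal G)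
    (hP : Pseudoradial G) :
    ∃ 𝓑 : Set (Set G), (𝓝 (1 : G)).HasBasis (fun s => s ∈ 𝓑) id ∧ #𝓑 ≤ κ := by
  haveI : T2Space (Additive G) := h2
  exact locP (A := Additive G) hκ hc (fun P a b c => mn_cen (U := univ)
    (fun σ h1 h2 h3 _ => hM σ h3 h1 h2) (A := Additive G) Additive.toMul
    (IsClosedEmbedding.id (X := G)) rfl (fun x y => div_eq_mul_inv _ _) (by simp)
    (W := univ) ⟨univ, univ_mem, fun _ _ _ _ => trivial⟩ P a b c univ_mem) hP

abbrev K := J → Multiplicative (ZMod 2)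

lemma two (a b c : Multiplicative (ZMod 2)) (h1 : a ≠ c) (h2 : b ≠ c) : a = b := by
  revert a b c; decide

lemma seqK (h : NoSmallSplitting) (x : ℕ → K) :
    ∃ (φ : ℕ → ℕ) (p : K), StrictMono φ ∧ Tendsto (x ∘ φ) atTop (𝓝 p) := by
  classical
  obtain ⟨I, hI, k⟩ := h (range fun a : J => {n | x n a = 1}) (mk_range_le.trans (by simp))
  have t (S : Set ℕ) (hS : (I ∩ S).Finite) : ∀ᶠ n in atTop, Nat.nth (· ∈ I) n ∉ S := by
    have := (Nat.nth_strictMono hI).injective.tendsto_cofinite.eventually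
      hS.eventually_cofinite_notMem
    rw [Nat.cofinite_eq_atTop] at this
    exact this.mono fun n a b => a ⟨Nat.nth_mem_of_infinite hI n, b⟩
  refine ⟨_, fun a => if (I ∩ {n | x n a = 1}).Finite then Multiplicative.ofAdd 1 else 1,
    Nat.nth_strictMono hI, tendsto_pi_nhds.2 fun a => ?_⟩
  rw [nhds_discrete, tendsto_pure]
  split_ifs with e
  · exact (t _ e).mono fun n hn => two _ _ 1 hn (by decide)
  · exact (t _ ((k _ ⟨a, rfl⟩).resolve_left e)).mono fun n hn => not_not.1 hn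

lemma prK (h : NoSmallSplitting) : Pseudoradial K := fun A hA => by
  by_contra hn
  refine hA (isClosed_of_closure_subset fun p hp => by_contra fun hq => ?_)
  have (a : J) : ∃ y ∈ A, ∀ b ≤ a, y b = p b := by
    obtain ⟨e, he⟩ := (cI a).exists_eq_range ⟨a, mem_Iic.2 le_rfl⟩
    have (n : ℕ) : ∃ y ∈ A, ∀ i < n, y (e i) = p (e i) := by
      obtain ⟨y, h1, h2⟩ := mem_closure_iff_nhds.1 hp ((e '' Iio n).pi fun b => {p b})
        (set_pi_mem_nhds ((finite_Iio n).image e) fun i _ => (isOpen_discrete _).mem_nhds rfl)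
      exact ⟨y, h2, fun i hi => h1 _ ⟨i, hi, rfl⟩⟩
    choose x x1 x2 using this
    obtain ⟨φ, y, hφ, hy⟩ := seqK h x
    refine ⟨y, by_contra fun k => hn ⟨ℕ, inferInstance, inferInstance, inferInstance, x ∘ φ, y,
      fun _ => x1 _, k, hy⟩, fun b hb => ?_⟩
    obtain ⟨i, rfl⟩ : b ∈ range e := he ▸ hb
    exact tendsto_nhds_unique (tendsto_pi_nhds.1 hy (e i)) (tendsto_const_nhds.congr'
      ((hφ.tendsto_atTop.eventually (eventually_gt_atTop i)).mono fun n k => (x2 _ i k).symm))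
  choose y y1 y2 using this
  have : Nonempty J := mk_ne_zero_iff.1 (by simpa using (aleph_pos 1).ne')
  exact hn ⟨J, inferInstance, inferInstance, this, y, p, y1, hq, tendsto_pi_nhds.2 fun b =>
    tendsto_const_nhds.congr' ((eventually_ge_atTop b).mono fun a k => (y2 a b k).symm)⟩

lemma cmin {X : Type} (τ t : TopologicalSpace X) (hc : @CompactSpace X τ) (h1 : τ ≤ t)
    (h2 : @T2Space X t) : t = τ := le_antisymm (fun U hU => by
  have := @IsCompact.image X X τ t Uᶜ id (@IsClosed.isCompact X τ _ hc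
    (@IsOpen.isClosed_compl X τ _ hU)) (continuous_id_iff_le.2 h1)
  rw [image_id] at this
  exact (@isClosed_compl_iff X t U).1 (@IsCompact.isClosed X t h2 _ this)) h1

theorem result :
    (∀ κ : Cardinal, ℵ₀ ≤ κ → 𝔠 ≤ succ κ → ∀ (G : Type) [CommGroup G] [TopologicalSpace G]
      [IsTopologicalGroup G] [T2Space G], Minimal G → Pseudoradial G →
        ∃ 𝓑 : Set (Set G), (𝓝 (1 : G)).HasBasis (fun s => s ∈ 𝓑) id ∧ #𝓑 ≤ κ) ∧
    (continuum.{0} = ℵ₁ → ∀ (G : Type) [CommGroup G] [TopologicalSpace G]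
      [IsTopologicalGroup G] [T2Space G], Minimal G → Pseudoradial G → MetrizableSpace G) ∧
    (NoSmallSplitting → ∃ (G : Type) (_ : CommGroup G) (_ : TopologicalSpace G),
      IsTopologicalGroup G ∧ T2Space G ∧ Minimal G ∧ Pseudoradial G ∧ ¬ MetrizableSpace G) := by
  refine ⟨chi, fun hc G _ _ _ _ h1 h2 => ?_, fun h => ⟨K, inferInstance, inferInstance,
    inferInstance, inferInstance, fun t h1 _ h2 => ?_, prK h, fun hm => ?_⟩⟩
  · obtain ⟨𝓑, b1, b2⟩ := chi ℵ₀ le_rfl (hc.trans succ_aleph0.symm).le G h1 h2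
    exact metr (HasCountableBasis.isCountablyGenerated ⟨b1, le_aleph0_iff_set_countable.1 b2⟩)
  · exact cmin _ t inferInstance h1 h2
  · obtain ⟨U, hU⟩ := (𝓝 (1 : K)).exists_antitone_basis
    have (n : ℕ) : ∃ F : Set J, F.Finite ∧ ∀ y : K, (∀ b ∈ F, y b = 1) → y ∈ U n := by
      have := hU.mem n
      rw [nhds_pi, Filter.mem_pi] at this
      obtain ⟨F, hF, t, ht, h2⟩ := this
      exact ⟨F, hF, fun y hy => h2 fun i hi => show y i ∈ t i by
        rw [hy i hi]; exact mem_of_mem_nhds (ht i)⟩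
    choose F f1 f2 using this
    obtain ⟨a, ha⟩ : ∃ a, a ∉ ⋃ n, F n := by
      by_contra! k
      have := (countable_iUnion fun n => (f1 n).countable).le_aleph0
      rw [eq_univ_of_forall k] at this
      exact aleph0_lt_aleph_one.{0}.not_ge (by simpa using this)
    obtain ⟨n, hn⟩ := hU.mem_iff.1 (((isOpen_discrete {1}).preimage (continuous_apply a)).mem_nhds rfl)
    classical
    have : Function.update (1 : K) a (Multiplicative.ofAdd 1) a = 1 := hn (f2 n _ fun b hb =>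
      update_of_ne (fun e : b = a => ha (mem_iUnion.2 ⟨n, e ▸ hb⟩)) _ _)
    rw [update_self] at this
    exact absurd this (by decide)

end Pool.Agent.Results.MP_7406cc_gt.Indep
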